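import Mathlib
import Pool.Agent.W873.Kh.KH

set_option autoImplicit false

/-!
# The failure of the Kurepa hypothesis can be destroyed by one Cohen real

`W` is `ω₁`, `Add1` is Cohen forcing `Add(ω, 1)`. The forcing relation is the one of
`Pool.Agent.Helper669.Forcing`: a sentence is the set of the conditions which force it. The
forcing extension of the extension by `P` by the forcing `Add(ω, 1)` is the extension by the
product `P × Add(ω, 1)`. `KurepaHyp` is the Kurepa hypothesis in the extension, and
`OmegaOnePreserved` says that `ω₁` of the ground model is `ω₁` of the extension.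
-/

namespace Pool.Agent.Results.MP_7549fd_lc.CohenAddsKurepaTree

open Cardinal Pool.Agent.Helper669.Forcing Pool.Agent.W873.Kh

/-- the weakest condition -/
def one {I : Type} [LinearOrder I] (β : W) : Cond I where
  β := β
  tr _ _ _ n := n
  tr_self _ _ _ _ := rfl
  tr_comp _ _ _ _ _ _ _ _ := rfl
  tr_surj _ _ _ m _ _ := ⟨m, rfl⟩
  tr_meas _ _ _ _ _ := measurable_const
  A := ∅
  A_cnt := Set.countable_empty
  f _ _ := 0
  f_meas _ := measurable_const
  f_out _ _ _ := rfl
  E := ∅
  E_cnt := Set.countable_empty
  g j _ := j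
  g_lt _ _ h := absurd h (Set.notMem_empty _)
  g_out _ _ _ := rfl

/-- Q1: from an inaccessible cardinal there is a forcing `P` preserving `ω₁` such that in the
extension by `P` the Kurepa hypothesis fails, and adding one Cohen real to the extension forces
it. -/
theorem result (κ : Cardinal.{0}) (hκ : κ.IsInaccessible) :
    ∃ (P : Type) (_ : Preorder P), Nonempty P ∧
      (∀ p : P, p ∈ OmegaOnePreserved P ∧ p ∈ fnot (KurepaHyp P)) ∧
      (∀ a : P × Add1, a ∈ OmegaOnePreserved (P × Add1) ∧ a ∈ KurepaHyp (P × Add1)) := by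
  have h : Nonempty W := by
    rw [← mk_ne_zero_iff, mk_ord_toType]
    exact (aleph_pos 1).ne'
  exact ⟨Cond (Ik κ), inferInstance, ⟨one h.some⟩,
    fun p => ⟨Cond.omegaOne p, Cond.not_kurepa hκ p⟩,
    fun a => ⟨Cond.omegaOne_prod a, Cond.kurepa hκ a⟩⟩

end Pool.Agent.Results.MP_7549fd_lc.CohenAddsKurepaTree
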